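import Mathlib
import Pool.Agent.H57.Cong

namespace Pool.Agent.Results.MP_7d0087_nt.Fails

open Finset Pool.Agent.H57.Cong

/-- the sum -/
def S (p : ℕ) : ℚ := ∑ k ∈ range p, bn (-1 / 2) k * bn (-1 / 3) k / (-4) ^ k

/-- Statement 2 fails. -/
theorem result : ¬ ∀ p : ℕ, p.Prime → 5 < p → p % 3 = 1 → ∀ A B : ℤ, (p : ℤ) = A ^ 2 + 3 * B ^ 2 →
    A % 3 = 1 → ¬ 5 ∣ B → (5 ∣ A + B ∨ 5 ∣ A + 2 * B) →
    Cong p 2 (S p) ((jacobiSym p 5 : ℚ) * (A + 3 * B - p / (A + 3 * B))) := by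
  intro h
  have := h 7 (by norm_num) (by norm_num) (by norm_num) (-2) 1 (by norm_num) (by norm_num)
    (by norm_num) (by norm_num)
  rw [show jacobiSym ((7 : ℕ) : ℤ) 5 = -1 by norm_num] at this
  refine not_cong (by norm_num) ?_ this
  decide +kernel

end Pool.Agent.Results.MP_7d0087_nt.Fails
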